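import Pool.Agent.H48.ER.Targets

/-!
# MP_816b90_co, row FST: the first vertex of a chordless path in a set
-/

set_option autoImplicit false

open Pool.Agent.H48.ER

namespace Pool.Agent.H94.ER

theorem pf_FST : T_FST := by
  classical
  intro V G n x y R Z hR hZ
  obtain ⟨g, g0, gn, inj, adj, rfl⟩ := hR
  have hex : ∃ i, i ≤ n ∧ g i ∈ Z := by
    obtain ⟨w, ⟨i, hi, rfl⟩, hw⟩ := hZ
    exact ⟨i, hi, hw⟩
  set i := Nat.find hex with hidef
  have hi : i ≤ n ∧ g i ∈ Z := Nat.find_spec hex
  have hmin : ∀ j, j ≤ n → g j ∈ Z → i ≤ j := fun j hj hz => Nat.find_min' hex ⟨hj, hz⟩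
  have hin := hi.1
  refine ⟨i, n - i, g i, {v | ∃ j, j ≤ i ∧ g j = v}, {v | ∃ j, j ≤ n - i ∧ g (i + j) = v},
    ⟨g, g0, rfl, fun a b ha hb h => inj a b (by omega) (by omega) h,
      fun a b ha hb => adj a b (by omega) (by omega), rfl⟩,
    ⟨fun j => g (i + j), by simp, by
        show g (i + (n - i)) = y
        rw [show i + (n - i) = n by omega]; exact gn,
      fun a b ha hb h => by
        have := inj (i + a) (i + b) (by omega) (by omega) h
        omega,
      fun a b ha hb => by
        show G.Adj (g (i + a)) (g (i + b)) ↔ _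
        rw [adj (i + a) (i + b) (by omega) (by omega)]
        omega, rfl⟩, hi.2, by omega, ?_, ?_, ?_, ?_⟩
  · ext v
    constructor
    · rintro (⟨j, hj, rfl⟩ | ⟨j, hj, rfl⟩)
      · exact ⟨j, by omega, rfl⟩
      · exact ⟨i + j, by omega, rfl⟩
    · rintro ⟨j, hj, rfl⟩
      rcases le_total j i with h | h
      · exact Or.inl ⟨j, h, rfl⟩
      · exact Or.inr ⟨j - i, by omega, by rw [show i + (j - i) = j by omega]⟩
  · ext v
    constructor
    · rintro ⟨⟨j, hj, rfl⟩, ⟨k, hk, hkj⟩⟩
      have := inj (i + k) j (by omega) (by omega) hkj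
      have : j = i := by omega
      simp [this]
    · intro hv
      have hv' : v = g i := hv
      subst hv'
      exact ⟨⟨i, le_refl _, rfl⟩, ⟨0, by omega, by simp⟩⟩
  · rintro a ⟨⟨j, hj, rfl⟩, hja⟩ b ⟨⟨k, hk, rfl⟩, hkb⟩ hab
    have hj' : j ≠ i := by
      rintro rfl
      exact hja rfl
    have hk' : k ≠ 0 := by
      rintro rfl
      exact hkb (by simp)
    have := (adj j (i + k) (by omega) (by omega)).1 hab
    omega
  · rintro w ⟨j, hj, rfl⟩ hw
    have := hmin j (by omega) hw
    rw [show j = i by omega]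

end Pool.Agent.H94.ER
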